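import Pool.Agent.Helper79.TLN.StN

/-!
# Project TL, low levels, module MF-E: a cusp form of level four from its coefficients
-/

set_option autoImplicit false

open Pool.Agent.Helper79.TLN Pool.Agent.Helper28.LV Pool.Agent.Helper28.WK Pool.Agent.Helper14.WK
open Pool.Agent.Helper4.TL
open Pool.Agent.Helper14.CV (G0 Homog EqC act)
open UpperHalfPlane CongruenceSubgroup Matrix.SpecialLinearGroup ModularGroup Filter Topology
open scoped MatrixGroups ModularForm Manifold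

namespace Pool.Agent.Helper36.TLN

/-- Polynomial growth from the summability. -/
private theorem growth {n : ℕ} {b : ℕ → ℂ} (h0 : b 0 = 0)
    (hs : Summable (fun M : ℕ => ‖b M‖ / (M : ℝ) ^ n)) :
    ∃ C : ℝ, 0 ≤ C ∧ ∀ M : ℕ, ‖b M‖ ≤ C * (M : ℝ) ^ n := by
  refine ⟨∑' M : ℕ, ‖b M‖ / (M : ℝ) ^ n, tsum_nonneg fun M => by positivity, fun M => ?_⟩
  rcases Nat.eq_zero_or_pos M with hM | hM
  · subst hM
    rw [h0, norm_zero]
    exact mul_nonneg (tsum_nonneg fun M => by positivity) (by positivity)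
  · have h1 := hs.le_tsum M (fun j _ => by positivity)
    have h2 : (0 : ℝ) < (M : ℝ) ^ n := by positivity
    rwa [div_le_iff₀ h2] at h1

private theorem summ {n : ℕ} {b : ℕ → ℂ} {C : ℝ} (hC : ∀ M : ℕ, ‖b M‖ ≤ C * (M : ℝ) ^ n)
    {r : ℝ} (hr0 : 0 ≤ r) (hr : r < 1) : Summable (fun M : ℕ => ‖b M‖ * r ^ M) := by
  have h1 : Summable (fun M : ℕ => (M : ℝ) ^ n * r ^ M) :=
    summable_pow_mul_geometric_of_norm_lt_one n (by rwa [Real.norm_eq_abs, abs_of_nonneg hr0])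
  refine Summable.of_nonneg_of_le (fun M => by positivity) (fun M => ?_) (h1.mul_left C)
  have := mul_le_mul_of_nonneg_right (hC M) (pow_nonneg hr0 M)
  linarith [mul_assoc C ((M : ℝ) ^ n) (r ^ M)]

private theorem exp_pow (M : ℕ) (z : ℂ) : Complex.exp (2 * Real.pi * Complex.I * M * z) =
    Complex.exp (2 * Real.pi * Complex.I * z) ^ M := by
  rw [← Complex.exp_nat_mul]
  congr 1
  ring

private theorem norm_q (z : ℂ) : ‖Complex.exp (2 * Real.pi * Complex.I * z)‖ =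
    Real.exp (-(2 * Real.pi * z.im)) := by
  rw [Complex.norm_exp]
  congr 1
  have : (2 * Real.pi * Complex.I * z : ℂ) = ((2 * Real.pi : ℝ) : ℂ) * (Complex.I * z) := by
    push_cast
    ring
  rw [this, Complex.re_ofReal_mul, Complex.I_mul_re]
  ring

private theorem norm_q_lt {z : ℂ} (hz : 0 < z.im) :
    ‖Complex.exp (2 * Real.pi * Complex.I * z)‖ < 1 := by
  rw [norm_q, Real.exp_lt_one_iff]
  have := Real.pi_pos
  have : 0 < 2 * Real.pi * z.im := by positivity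
  linarith

private theorem hasSum_FF {n : ℕ} {b : ℕ → ℂ} {C : ℝ} (hC : ∀ M : ℕ, ‖b M‖ ≤ C * (M : ℝ) ^ n)
    {z : ℂ} (hz : 0 < z.im) :
    HasSum (fun M : ℕ => b M * Complex.exp (2 * Real.pi * Complex.I * M * z)) (FF b z) := by
  refine Summable.hasSum ?_
  refine Summable.of_norm ?_
  refine (summ hC (norm_nonneg _) (norm_q_lt hz)).congr fun M => ?_
  rw [norm_mul, exp_pow, norm_pow]

private theorem diff_FF {n : ℕ} {b : ℕ → ℂ} {C : ℝ} (hC : ∀ M : ℕ, ‖b M‖ ≤ C * (M : ℝ) ^ n) :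
    DifferentiableOn ℂ (FF b) {z : ℂ | 0 < z.im} := by
  intro z hz
  have hz' : 0 < z.im := hz
  have hopen : IsOpen {w : ℂ | z.im / 2 < w.im} := isOpen_lt continuous_const Complex.continuous_im
  have hmem : z ∈ {w : ℂ | z.im / 2 < w.im} := by
    change z.im / 2 < z.im
    linarith
  have hr : Real.exp (-(2 * Real.pi * (z.im / 2))) < 1 := by
    rw [Real.exp_lt_one_iff]
    have := Real.pi_pos
    have : 0 < 2 * Real.pi * (z.im / 2) := by positivity
    linarith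
  have h1 : DifferentiableOn ℂ (fun w : ℂ => ∑' M : ℕ,
      b M * Complex.exp (2 * Real.pi * Complex.I * M * w)) {w : ℂ | z.im / 2 < w.im} := by
    refine Complex.differentiableOn_tsum_of_summable_norm (summ hC (Real.exp_pos _).le hr) (fun M => ?_)
      hopen (fun M w hw => ?_)
    · exact ((Complex.differentiable_exp.comp
        ((differentiable_const _).mul differentiable_id)).const_mul _).differentiableOn
    · rw [norm_mul, exp_pow, norm_pow, norm_q]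
      refine mul_le_mul_of_nonneg_left (pow_le_pow_left₀ (Real.exp_pos _).le ?_ M) (norm_nonneg _)
      rw [Real.exp_le_exp]
      have hw' : z.im / 2 < w.im := hw
      have := Real.pi_pos
      have := mul_le_mul_of_nonneg_left hw'.le (by positivity : (0 : ℝ) ≤ 2 * Real.pi)
      linarith
  exact ((h1 z hmem).differentiableAt (hopen.mem_nhds hmem)).differentiableWithinAt

private theorem qp (τ : ℍ) (M : ℕ) : Function.Periodic.qParam 1 (τ : ℂ) ^ M =
    Complex.exp (2 * Real.pi * Complex.I * M * τ) := by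
  rw [exp_pow]
  congr 1
  unfold Function.Periodic.qParam
  simp

/-- The sign of an element of `SL₂(ℤ)`. -/
private def ee (γ : SL(2, ℤ)) : ℤ := eps (γ 0 0) (γ 0 1) (γ 1 0) (γ 1 1)

private theorem det_ee (γ : SL(2, ℤ)) : γ 0 0 * γ 1 1 - γ 0 1 * γ 1 0 = 1 := by
  have h := γ.det_coe
  rwa [Matrix.det_fin_two] at h

private theorem det_ee2 (γ : SL(2, ℤ)) : ¬ (2 : ℤ) ∣ γ 0 0 * γ 1 1 - γ 0 1 * γ 1 0 := by
  rw [det_ee]
  decide

private theorem ee_mul (γ γ' : SL(2, ℤ)) : ee (γ * γ') = ee γ * ee γ' := by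
  unfold ee
  rw [← eps_mul (det_ee2 γ) (det_ee2 γ')]
  simp only [Matrix.SpecialLinearGroup.coe_mul, Matrix.mul_apply, Fin.sum_univ_two]

private theorem ee_one : ee 1 = 1 := by
  unfold ee
  simp only [Matrix.SpecialLinearGroup.coe_one, Matrix.one_apply_eq]
  rw [Matrix.one_apply_ne (by decide), Matrix.one_apply_ne (by decide)]
  exact eps_one

private theorem ee_sq (γ : SL(2, ℤ)) : ((ee γ : ℤ) : ℂ) * ((ee γ : ℤ) : ℂ) = 1 := by
  have h := eps_sq (γ 0 0) (γ 0 1) (γ 1 0) (γ 1 1)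
  unfold ee
  exact_mod_cast h

private theorem ee_inv (γ : SL(2, ℤ)) : ee γ⁻¹ = ee γ := by
  have h := ee_mul γ γ⁻¹
  rw [mul_inv_cancel, ee_one] at h
  have h1 := eps_sq (γ 0 0) (γ 0 1) (γ 1 0) (γ 1 1)
  change ee γ * ee γ = 1 at h1
  have h2 : ee γ * (ee γ⁻¹ - ee γ) = 0 := by linarith
  have h3 : ee γ ≠ 0 := by
    intro h0
    rw [h0] at h1
    norm_num at h1
  have h4 := (mul_eq_zero.1 h2).resolve_left h3
  linarith

/-- The transformation under the whole group from the generators. -/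
private theorem slash_all {k : ℤ} {h : ℍ → ℂ} (hT : h ∣[k] T = -h) (hS : h ∣[k] S = -h)
    (γ : SL(2, ℤ)) : h ∣[k] γ = ((ee γ : ℤ) : ℂ) • h := by
  have hmem : γ ∈ Subgroup.closure ({S, T} : Set SL(2, ℤ)) := by
    rw [SpecialLinearGroup.SL2Z_generators]
    exact Subgroup.mem_top γ
  induction hmem using Subgroup.closure_induction with
  | mem x hx =>
    have e1 : ee S = -1 := by
      unfold ee
      simp only [S]
      decide
    have e2 : ee T = -1 := by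
      unfold ee
      simp only [T]
      decide
    rcases hx with rfl | hx
    · rw [hS, e1]
      funext τ
      simp
    · rw [Set.mem_singleton_iff] at hx
      subst hx
      rw [hT, e2]
      funext τ
      simp
  | one =>
    rw [SlashAction.slash_one, ee_one]
    funext τ
    simp
  | mul x y _ _ hx hy =>
    rw [SlashAction.slash_mul, hx, ModularForm.SL_smul_slash, hy, ee_mul, smul_smul]
    push_cast
    rfl
  | inv x _ hx =>
    have h1 : h ∣[k] (x * x⁻¹) = h := by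
      rw [mul_inv_cancel, SlashAction.slash_one]
    rw [SlashAction.slash_mul, hx, ModularForm.SL_smul_slash] at h1
    rw [ee_inv]
    calc h ∣[k] x⁻¹ = (((ee x : ℤ) : ℂ) * ((ee x : ℤ) : ℂ)) • h ∣[k] x⁻¹ := by
          rw [ee_sq, one_smul]
      _ = ((ee x : ℤ) : ℂ) • (((ee x : ℤ) : ℂ) • h ∣[k] x⁻¹) := by rw [smul_smul]
      _ = ((ee x : ℤ) : ℂ) • h := by rw [h1]

private theorem denom_ne (γ : SL(2, ℤ)) (τ : ℍ) :
    ((γ 1 0 : ℤ) : ℂ) * τ + ((γ 1 1 : ℤ) : ℂ) ≠ 0 := by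
  have h := UpperHalfPlane.denom_ne_zero (γ : GL (Fin 2) ℝ) τ
  rwa [ModularGroup.denom_apply] at h

/-- The values at the image. -/
private theorem val_all {k : ℤ} {h : ℍ → ℂ} (hh : ∀ γ : SL(2, ℤ), h ∣[k] γ = ((ee γ : ℤ) : ℂ) • h)
    (γ : SL(2, ℤ)) (τ : ℍ) : h (γ • τ) = ((ee γ : ℤ) : ℂ) *
      (((γ 1 0 : ℤ) : ℂ) * τ + ((γ 1 1 : ℤ) : ℂ)) ^ k * h τ := by
  have h1 := congrFun (hh γ) τ
  rw [ModularForm.SL_slash_apply, ModularGroup.denom_apply, Pi.smul_apply, smul_eq_mul, zpow_neg] at h1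
  have h2 : (((γ 1 0 : ℤ) : ℂ) * τ + ((γ 1 1 : ℤ) : ℂ)) ^ k ≠ 0 := zpow_ne_zero _ (denom_ne γ τ)
  rw [mul_inv_eq_iff_eq_mul₀ h2] at h1
  rw [h1]
  ring

/-- Module MF-E. -/
theorem hMF : SNMF := by
  intro a b hb0 hev hs hS
  obtain ⟨C, hC0, hC⟩ := growth hb0 hs
  set f : ℍ → ℂ := fun τ => FF b τ with hf
  have hsum : ∀ τ : ℍ, HasSum (fun m : ℕ => b m • Function.Periodic.qParam 1 (τ : ℂ) ^ m) (f τ) := by
    intro τ
    have h1 := hasSum_FF hC τ.im_pos
    have h2 : (fun M : ℕ => b M * Complex.exp (2 * Real.pi * Complex.I * M * (τ : ℂ))) =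
        fun m : ℕ => b m • Function.Periodic.qParam 1 (τ : ℂ) ^ m := by
      funext m
      rw [qp, smul_eq_mul]
    rw [h2] at h1
    exact h1
  -- the function `h`
  obtain ⟨k, hk⟩ : ∃ k : ℤ, k = 2 * (a : ℤ) + 2 := ⟨_, rfl⟩
  obtain ⟨h, hh⟩ : ∃ h : ℍ → ℂ, h = fun τ : ℍ => FF b ((τ : ℂ) / 2) := ⟨_, rfl⟩
  have hpk : ∀ z : ℂ, z ^ k = z ^ (2 * a + 2) := by
    intro z
    rw [hk, ← zpow_natCast]
    congr 1
  have hT : h ∣[k] T = -h := by
    funext τ
    rw [ModularForm.SL_slash_apply]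
    have h1 : UpperHalfPlane.denom T τ = 1 := by
      rw [ModularGroup.denom_apply]
      simp [T]
    have h2 : ((T • τ : ℍ) : ℂ) = (τ : ℂ) + 1 := by
      rw [modular_T_smul, coe_vadd]
      push_cast
      ring
    rw [h1, one_zpow, mul_one, Pi.neg_apply, hh]
    simp only
    rw [h2]
    unfold FF
    rw [← tsum_neg]
    refine tsum_congr fun M => ?_
    rcases Nat.even_or_odd M with hM | ⟨j, hj⟩
    · rw [hev M hM, zero_mul, zero_mul, neg_zero]
    · have h3 : Complex.exp (2 * Real.pi * Complex.I * M * (((τ : ℂ) + 1) / 2)) =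
          -Complex.exp (2 * Real.pi * Complex.I * M * ((τ : ℂ) / 2)) := by
        have h4 : 2 * Real.pi * Complex.I * M * (((τ : ℂ) + 1) / 2) =
            2 * Real.pi * Complex.I * M * ((τ : ℂ) / 2) + (Real.pi * Complex.I +
              (j : ℤ) * (2 * Real.pi * Complex.I)) := by
          rw [hj]
          push_cast
          ring
        rw [h4, Complex.exp_add, Complex.exp_add, Complex.exp_int_mul_two_pi_mul_I,
          Complex.exp_pi_mul_I]
        ring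
      rw [h3]
      ring
  have hSS : h ∣[k] S = -h := by
    funext τ
    rw [SlashInvariantForm.slash_S_apply]
    have hz : (τ : ℂ) ≠ 0 := τ.ne_zero
    have him : 0 < ((τ : ℂ) / 2).im := by
      have h1 : ((τ : ℂ) / 2).im = τ.im / 2 := by
        rw [Complex.div_ofNat_im]
        rfl
      rw [h1]
      exact half_pos τ.im_pos
    have h2 := hS ((τ : ℂ) / 2) him
    have h3 : h (.mk _ τ.im_inv_neg_coe_pos) = FF b (-1 / (4 * ((τ : ℂ) / 2))) := by
      rw [hh]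
      simp only
      congr 1
      rw [inv_neg]
      field_simp
      norm_num
    rw [h3, h2]
    have h4 : (τ : ℂ) ^ (-k) = ((τ : ℂ) ^ (2 * a + 2))⁻¹ := by
      rw [zpow_neg, hpk]
    rw [h4, Pi.neg_apply, hh]
    simp only
    have h5 : (τ : ℂ) ^ (2 * a + 2) ≠ 0 := pow_ne_zero _ hz
    rw [mul_div_cancel₀ (τ : ℂ) two_ne_zero]
    field_simp
  have hall := slash_all hT hSS
  have hzero : IsZeroAtImInfty f := by
    set g : ℍ → ℂ := fun τ => ∑' m : ℕ, b (m + 1) • Function.Periodic.qParam 1 (τ : ℂ) ^ m with hg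
    have hgs : ∀ τ : ℍ, HasSum (fun m : ℕ => b (m + 1) • Function.Periodic.qParam 1 (τ : ℂ) ^ m)
        (g τ) := by
      intro τ
      refine Summable.hasSum ?_
      have h1 := (hsum τ).summable
      have h2 := (summable_nat_add_iff 1).mpr h1
      have hq : Function.Periodic.qParam 1 (τ : ℂ) ≠ 0 := Function.Periodic.qParam_ne_zero _
      refine (h2.mul_left (Function.Periodic.qParam 1 (τ : ℂ))⁻¹).congr fun m => ?_
      simp only [smul_eq_mul]
      rw [pow_succ]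
      field_simp
    have hgb := isBoundedAtImInfty_of_hasSum_qExpansion one_pos hgs
    have hfg : f = (fun τ : ℍ => Function.Periodic.qParam 1 (τ : ℂ)) * g := by
      funext τ
      have h1 := (hasSum_nat_add_iff' 1).mpr (hsum τ)
      rw [Finset.sum_range_one, hb0, zero_smul, sub_zero] at h1
      have h2 := (hgs τ).mul_left (Function.Periodic.qParam 1 (τ : ℂ))
      refine h1.unique ?_
      refine (congrArg (fun F => HasSum F _) ?_).mp h2
      funext m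
      simp only [smul_eq_mul]
      rw [pow_succ]
      ring
    rw [hfg]
    exact Filter.ZeroAtFilter.mul_boundedAtFilter (qParam_tendsto_atImInfty one_pos) hgb
  have hle : G0 4 ≤ 𝒮ℒ := by
    rintro _ ⟨γ, -, rfl⟩
    exact ⟨γ, rfl⟩
  -- even lower left entry
  have heven : ∀ (γ : SL(2, ℤ)) (c : ℤ), γ 1 0 = 2 * c → f ∣[k] γ =
      ((eps (γ 0 0) (2 * γ 0 1) c (γ 1 1) : ℤ) : ℂ) • f := by
    intro γ c hc
    funext τ
    have hdet := det_ee γ
    have him : 0 < (2 * (τ : ℂ)).im := by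
      have h1 : (2 * (τ : ℂ)).im = 2 * τ.im := by
        simp
      rw [h1]
      linarith [τ.im_pos]
    obtain ⟨κ, hκ⟩ : ∃ κ : SL(2, ℤ), κ = ⟨!![γ 0 0, 2 * γ 0 1; c, γ 1 1], by
      rw [hc] at hdet
      rw [Matrix.det_fin_two_of]
      linear_combination hdet⟩ := ⟨_, rfl⟩
    have k00 : κ 0 0 = γ 0 0 := by rw [hκ]; rfl
    have k01 : κ 0 1 = 2 * γ 0 1 := by rw [hκ]; rfl
    have k10 : κ 1 0 = c := by rw [hκ]; rfl
    have k11 : κ 1 1 = γ 1 1 := by rw [hκ]; rfl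
    have h1 := val_all hall κ ⟨2 * (τ : ℂ), him⟩
    rw [ModularForm.SL_slash_apply, ModularGroup.denom_apply, zpow_neg, Pi.smul_apply, smul_eq_mul]
    have hd : ((γ 1 0 : ℤ) : ℂ) * τ + ((γ 1 1 : ℤ) : ℂ) =
        ((κ 1 0 : ℤ) : ℂ) * (2 * (τ : ℂ)) + ((κ 1 1 : ℤ) : ℂ) := by
      rw [k10, k11, hc]
      push_cast
      ring
    have h2 : h (κ • ⟨2 * (τ : ℂ), him⟩) = f (γ • τ) := by
      rw [hh, hf]
      simp only
      congr 1
      rw [coe_specialLinearGroup_apply, coe_specialLinearGroup_apply, k00, k01, k10, k11, hc]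
      simp only [algebraMap_int_eq, eq_intCast, Complex.ofReal_intCast]
      push_cast
      have e1 : (c : ℂ) * (2 * (τ : ℂ)) + ((γ 1 1 : ℤ) : ℂ) = 2 * (c : ℂ) * τ + ((γ 1 1 : ℤ) : ℂ) := by
        ring
      rw [e1]
      ring
    have h3 : h ⟨2 * (τ : ℂ), him⟩ = f τ := by
      rw [hh, hf]
      simp only
      rw [mul_div_cancel_left₀ (τ : ℂ) two_ne_zero]
    have h4 : ee κ = eps (γ 0 0) (2 * γ 0 1) c (γ 1 1) := by
      unfold ee
      rw [k00, k01, k10, k11]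
    have hD : (((γ 1 0 : ℤ) : ℂ) * τ + ((γ 1 1 : ℤ) : ℂ)) ^ k ≠ 0 := zpow_ne_zero _ (denom_ne γ τ)
    rw [h2, h3, h4] at h1
    have h5 : (((κ 1 0 : ℤ) : ℂ) * ((⟨2 * (τ : ℂ), him⟩ : ℍ) : ℂ) + ((κ 1 1 : ℤ) : ℂ)) =
        ((γ 1 0 : ℤ) : ℂ) * τ + ((γ 1 1 : ℤ) : ℂ) := hd.symm
    rw [h5] at h1
    rw [h1, mul_inv_eq_iff_eq_mul₀ hD]
    ring
  -- odd lower left entry
  have hodd : ∀ (γ : SL(2, ℤ)) (c : ℤ), γ 1 0 = 2 * c + 1 → ∃ A : ℂ, f ∣[k] γ =
      A • (fun τ : ℍ => FF b (((τ : ℂ) + ((γ 1 1 : ℤ) : ℂ)) / 4)) := by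
    intro γ c hc
    obtain ⟨κ, hκ⟩ : ∃ κ : SL(2, ℤ), κ = ⟨!![2 * γ 0 0, γ 0 1 - γ 0 0 * γ 1 1; γ 1 0, -(c * γ 1 1)], by
      have hdet := det_ee γ
      rw [Matrix.det_fin_two_of]
      have h1 : 2 * γ 0 0 * -(c * γ 1 1) - (γ 0 1 - γ 0 0 * γ 1 1) * γ 1 0 =
          (γ 0 0 * γ 1 1 - γ 0 1 * γ 1 0) + γ 0 0 * γ 1 1 * (γ 1 0 - (2 * c + 1)) := by ring
      rw [h1, hc, sub_self, mul_zero, add_zero, ← hc]
      exact hdet⟩ := ⟨_, rfl⟩
    have k00 : κ 0 0 = 2 * γ 0 0 := by rw [hκ]; rfl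
    have k01 : κ 0 1 = γ 0 1 - γ 0 0 * γ 1 1 := by rw [hκ]; rfl
    have k10 : κ 1 0 = γ 1 0 := by rw [hκ]; rfl
    have k11 : κ 1 1 = -(c * γ 1 1) := by rw [hκ]; rfl
    refine ⟨((ee κ : ℤ) : ℂ) * ((2 : ℂ) ^ k)⁻¹, ?_⟩
    funext τ
    have him : 0 < (((τ : ℂ) + ((γ 1 1 : ℤ) : ℂ)) / 2).im := by
      have h1 : (((τ : ℂ) + ((γ 1 1 : ℤ) : ℂ)) / 2).im = τ.im / 2 := by
        rw [Complex.div_ofNat_im, Complex.add_im, Complex.intCast_im, add_zero]
        rfl
      rw [h1]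
      exact half_pos τ.im_pos
    have h1 := val_all hall κ ⟨((τ : ℂ) + ((γ 1 1 : ℤ) : ℂ)) / 2, him⟩
    rw [ModularForm.SL_slash_apply, ModularGroup.denom_apply, zpow_neg, Pi.smul_apply, smul_eq_mul]
    have hcC : ((γ 1 0 : ℤ) : ℂ) = 2 * (c : ℂ) + 1 := by
      rw [hc]
      push_cast
      ring
    have hd : ((κ 1 0 : ℤ) : ℂ) * (((τ : ℂ) + ((γ 1 1 : ℤ) : ℂ)) / 2) + ((κ 1 1 : ℤ) : ℂ) =
        (((γ 1 0 : ℤ) : ℂ) * τ + ((γ 1 1 : ℤ) : ℂ)) / 2 := by
      rw [k10, k11, hcC]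
      push_cast
      ring
    have h2 : h (κ • ⟨((τ : ℂ) + ((γ 1 1 : ℤ) : ℂ)) / 2, him⟩) = f (γ • τ) := by
      rw [hh, hf]
      simp only
      congr 1
      rw [coe_specialLinearGroup_apply, coe_specialLinearGroup_apply]
      simp only [algebraMap_int_eq, eq_intCast, Complex.ofReal_intCast]
      rw [hd, k00, k01]
      push_cast
      have hD := denom_ne γ τ
      field_simp
      ring
    have h3 : h ⟨((τ : ℂ) + ((γ 1 1 : ℤ) : ℂ)) / 2, him⟩ =
        FF b (((τ : ℂ) + ((γ 1 1 : ℤ) : ℂ)) / 4) := by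
      rw [hh]
      simp only
      congr 1
      ring
    have hD : (((γ 1 0 : ℤ) : ℂ) * τ + ((γ 1 1 : ℤ) : ℂ)) ^ k ≠ 0 := zpow_ne_zero _ (denom_ne γ τ)
    have h5 : (((κ 1 0 : ℤ) : ℂ) * ((⟨((τ : ℂ) + ((γ 1 1 : ℤ) : ℂ)) / 2, him⟩ : ℍ) : ℂ) +
        ((κ 1 1 : ℤ) : ℂ)) = (((γ 1 0 : ℤ) : ℂ) * τ + ((γ 1 1 : ℤ) : ℂ)) / 2 := hd
    rw [h2, h3, h5, div_zpow] at h1
    rw [h1, mul_inv_eq_iff_eq_mul₀ hD]
    rw [div_eq_mul_inv]
    ring
  have hzero' : ∀ γ : SL(2, ℤ), IsZeroAtImInfty (f ∣[k] γ) := by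
    intro γ
    rcases Int.even_or_odd' (γ 1 0) with ⟨c, hc | hc⟩
    · rw [heven γ c hc]
      exact Filter.ZeroAtFilter.smul _ hzero
    · obtain ⟨A, hA⟩ := hodd γ c hc
      rw [hA]
      refine Filter.ZeroAtFilter.smul _ ?_
      have h0 := isZeroAtImInfty_iff.1 hzero
      refine isZeroAtImInfty_iff.2 fun ε hε => ?_
      obtain ⟨B, hB⟩ := h0 ε hε
      refine ⟨4 * B, fun τ hτ => ?_⟩
      have h1 : (((τ : ℂ) + ((γ 1 1 : ℤ) : ℂ)) / 4).im = τ.im / 4 := by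
        rw [Complex.div_ofNat_im, Complex.add_im, Complex.intCast_im, add_zero]
        rfl
      have him : 0 < (((τ : ℂ) + ((γ 1 1 : ℤ) : ℂ)) / 4).im := by
        rw [h1]
        have := τ.im_pos
        positivity
      refine hB ⟨((τ : ℂ) + ((γ 1 1 : ℤ) : ℂ)) / 4, him⟩ ?_
      show B ≤ (((τ : ℂ) + ((γ 1 1 : ℤ) : ℂ)) / 4).im
      rw [h1]
      linarith
  have hSL : ∀ γ ∈ Gamma0 4, f ∣[k] γ = f := by
    intro γ hγ
    rw [Gamma0_mem] at hγ
    obtain ⟨c, hc⟩ := (ZMod.intCast_zmod_eq_zero_iff_dvd _ 4).1 hγ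
    have hc' : γ 1 0 = 2 * (2 * c) := by
      rw [hc]
      push_cast
      ring
    rw [heven γ (2 * c) hc', eps_id ⟨_, rfl⟩ ⟨_, rfl⟩]
    funext τ
    simp
  rw [hk] at hSL hzero'
  refine ⟨{ toFun := f
            slash_action_eq' := ?_
            holo' := ?_
            zero_at_cusps' := ?_ }, ?_⟩
  · rintro _ ⟨γ, hγ, rfl⟩
    exact hSL γ hγ
  · rw [UpperHalfPlane.mdifferentiable_iff]
    refine (diff_FF hC).congr fun z hz => ?_
    have hz' : 0 < z.im := hz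
    change f (ofComplex z) = FF b z
    rw [ofComplex_apply_of_im_pos hz']
  · intro c hc
    have hc' : IsCusp c 𝒮ℒ := hc.mono hle
    rw [OnePoint.isZeroAt_iff_forall_SL2Z hc']
    intro γ _
    exact hzero' γ
  · intro M
    refine (ModularFormClass.qExpansion_coeff_unique (h := 1) one_pos ?_ hsum M).symm
    rw [CongruenceSubgroup.strictPeriods_Gamma0]
    exact AddSubgroup.mem_zmultiples 1

end Pool.Agent.Helper36.TLN
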